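import Pool.Agent.K1H57.DW.Class
import Pool.Agent.R782.Bal.Hv

/-!
# The Charney–Davis inequality for a class closed under Morse rules, degree by degree

The inequality `(-1)^e (h_0 - h_1 + ... + h_(2e)) ≥ 0` for the flag complexes of dimension `2 e - 1` of the finite
graphs `G` which are nonacyclic and Gorenstein over the reals and such that `G` is in the class `VQ D` for the set `D`
of the degrees `> e`. The class `VQ D` (`Pool/Agent/K1H57/DW/Class.lean`) contains the earlier class `MQ b` for the
degrees `≥ b`, the degrees may be treated one by one by different decompositions, and it is closed under the Morse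
rules in single degrees, duality, joins, gluings, vertex splittings, and adding and deleting vertices and edges.
-/

set_option autoImplicit false

namespace Pool.Agent.Results.MP_32beb3_co.DegreewiseClass

open Pool.Agent.W907.SG Pool.Agent.R782.Bal Pool.Agent.K1H57.DW
open Pool.Agent.TH652.Above (HSph chi_sign singer_of_above)

/-- The Charney–Davis inequality for the flag homology spheres of dimension `2 e - 1` in the class `VQ` of the degrees
greater than `e`. -/
theorem result (e : ℕ) (V : Type) [Fintype V] [LinearOrder V] (G : SimpleGraph V) (hS : HSph (2 * e) G)
    (hG : VQ (fun i => e < i) G) (h : ℕ → ℤ) (hh : IsH G (2 * e) h) :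
    0 ≤ (-1) ^ e * ∑ i ∈ Finset.range (2 * e + 1), (-1) ^ i * h i :=
  h_alt_nonneg hS (chi_sign G fun i hi =>
    singer_of_above hS (fun j hj => van_VQ hG j (by omega)) i (by omega)) hh

end Pool.Agent.Results.MP_32beb3_co.DegreewiseClass
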